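import Pool.Agent.MP_92db0f_lc_mul.Block

/-!
Additions and removals of strings that no probe sees, in blocks whose addresses have any length.
-/

set_option autoImplicit false

namespace Pool.Agent.PFG

open MP_92db0f_lc_mul

variable {E : ℕ → Type} [∀ i, CommRing (E i)]

/-- **The block.** -/
theorem exists_block {w : ℕ → ℕ} {pat : Set (List Bool)} (hpat : Universal E w pat)
    (A : Set (List Bool)) (S : Finset (Pr E)) (k l : ℕ) (hl : 12 ≤ l) (z : Fin k → Bool)
    (hz : ∀ a b : Fin l → Bool, List.ofFn (Fin.append z (Fin.append a b)) ∈ A ↔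
      (List.ofFn a ∈ pat ∧ List.ofFn b ∉ pat))
    (hS : wt w S ≤ 2 ^ (l / 4)) :
    ∃ (B : Set (List Bool)) (T : Finset (Fin l → Bool)) (b : Fin l → Bool), b ∈ T ∧
      List.ofFn b ∉ pat ∧
      (∀ w, w ∈ B ↔ (w ∈ A ∧ ¬ ∃ a ∈ T, List.ofFn a ∈ pat ∧
          w = List.ofFn (Fin.append z (Fin.append a b))) ∨
        ∃ a ∈ T, List.ofFn a ∉ pat ∧ w = List.ofFn (Fin.append z (Fin.append a b))) ∧
      Agree A B S := by
  classical
  -- the two kinds of probes
  let S₁ : Finset (List Bool) := S.toLeft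
  let S₂ : Finset (Pt E) := S.toRight
  have hwt : wt w S = S₁.card + ∑ p ∈ S₂, (if p.1 = 0 then 1 else w p.2.1) := by
    have h0 : wt w S = ∑ p ∈ S.toLeft.disjSum S.toRight, cost w p := by
      rw [Finset.toLeft_disjSum_toRight]
      rfl
    rw [h0, Finset.sum_disjSum, Finset.card_eq_sum_ones]
    rfl
  -- first parts that occur in direct probes
  let R : Finset (Fin l → Bool) := S₁.image fun u j => u.getD (k + (j : ℕ)) false
  have hR : R.card ≤ S₁.card := Finset.card_image_le
  have hmid : ∀ (a b : Fin l → Bool) (j : Fin l),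
      (List.ofFn (Fin.append z (Fin.append a b))).getD (k + (j : ℕ)) false = a j := by
    intro a b j
    have hj : k + (j : ℕ) < k + (l + l) := by have := j.2; omega
    rw [List.getD_eq_getElem _ _ (by rw [List.length_ofFn]; exact hj), List.getElem_ofFn]
    have h1 : (⟨k + (j : ℕ), hj⟩ : Fin (k + (l + l))) = Fin.natAdd k (Fin.castAdd l j) := rfl
    rw [h1, Fin.append_right, Fin.append_left]
  have hinj : ∀ a b a' b' : Fin l → Bool, Fin.append z (Fin.append a b) =
      Fin.append z (Fin.append a' b') → a = a' := by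
    intro a b a' b' h
    funext j
    rw [← hmid a b j, h, hmid]
  -- the system of equations
  let mid : Pt E → (i : ℕ) × (Fin l → E i) := fun p =>
    ⟨p.2.1, fun j => if h : k + (j : ℕ) < p.1 then p.2.2 ⟨k + j, h⟩ else 0⟩
  let S' : Finset ((i : ℕ) × (Fin l → E i)) := (S₂.filter fun p => p.1 ≠ 0).image mid
  have hS' : ∑ p ∈ S', w p.1 ≤ 2 ^ (l / 4) := by
    have h2 := sum_image_le (S₂.filter fun p => p.1 ≠ 0) mid (fun p => w p.1)
    have h4 : ∑ p ∈ S₂.filter (fun p => p.1 ≠ 0), w (mid p).1 =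
        ∑ p ∈ S₂.filter (fun p => p.1 ≠ 0), w p.2.1 := rfl
    have h3 : ∑ p ∈ S₂.filter (fun p => p.1 ≠ 0), w p.2.1 ≤
        ∑ p ∈ S₂, (if p.1 = 0 then 1 else w p.2.1) := by
      rw [Finset.sum_filter]
      refine Finset.sum_le_sum fun p _ => ?_
      by_cases h : p.1 = 0
      · simp [h]
      · simp [h]
    rw [h4] at h2
    exact h2.trans (h3.trans (by omega))
  obtain ⟨T, hTR, ⟨b, hb, hbpat⟩, hT⟩ := hpat l hl S' hS' R (by omega)
  let f : (Fin l → Bool) → (Fin (k + (l + l)) → Bool) := fun a => Fin.append z (Fin.append a b)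
  have hf : Function.Injective f := fun a a' h => hinj _ _ _ _ h
  let W₁ := (T.filter fun a => List.ofFn a ∉ pat).image f
  let W₂ := (T.filter fun a => List.ofFn a ∈ pat).image f
  have hW₁ : ∀ x ∈ W₁, List.ofFn x ∉ A := by
    intro x hx
    obtain ⟨a, ha, rfl⟩ := Finset.mem_image.1 hx
    intro h
    exact (Finset.mem_filter.1 ha).2 ((hz a b).1 h).1
  have hW₂ : ∀ x ∈ W₂, List.ofFn x ∈ A := by
    intro x hx
    obtain ⟨a, ha, rfl⟩ := Finset.mem_image.1 hx
    exact (hz a b).2 ⟨(Finset.mem_filter.1 ha).2, hbpat⟩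
  let B : Set (List Bool) := (A ∪ {w | ∃ x ∈ W₁, w = List.ofFn x}) \ {w | ∃ x ∈ W₂, w = List.ofFn x}
  -- membership
  have hmem : ∀ w, w ∈ B ↔ (w ∈ A ∧ ¬ ∃ a ∈ T, List.ofFn a ∈ pat ∧ w = List.ofFn (f a)) ∨
      ∃ a ∈ T, List.ofFn a ∉ pat ∧ w = List.ofFn (f a) := by
    intro w
    constructor
    · rintro ⟨h1 | ⟨x, hx, rfl⟩, h2⟩
      · left
        refine ⟨h1, ?_⟩
        rintro ⟨a, ha, hap, rfl⟩
        exact h2 ⟨f a, Finset.mem_image_of_mem _ (Finset.mem_filter.2 ⟨ha, hap⟩), rfl⟩
      · right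
        obtain ⟨a, ha, rfl⟩ := Finset.mem_image.1 hx
        exact ⟨a, (Finset.mem_filter.1 ha).1, (Finset.mem_filter.1 ha).2, rfl⟩
    · rintro (⟨h1, h2⟩ | ⟨a, ha, hap, rfl⟩)
      · refine ⟨Or.inl h1, ?_⟩
        rintro ⟨x, hx, rfl⟩
        obtain ⟨a, ha, rfl⟩ := Finset.mem_image.1 hx
        exact h2 ⟨a, (Finset.mem_filter.1 ha).1, (Finset.mem_filter.1 ha).2, rfl⟩
      · refine ⟨Or.inr ⟨f a, Finset.mem_image_of_mem _ (Finset.mem_filter.2 ⟨ha, hap⟩), rfl⟩, ?_⟩
        rintro ⟨x, hx, h⟩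
        obtain ⟨a', ha', rfl⟩ := Finset.mem_image.1 hx
        have h1 := hf (List.ofFn_injective h)
        rw [h1] at hap
        exact hap (Finset.mem_filter.1 ha').2
  refine ⟨B, T, b, hb, hbpat, hmem, ?_⟩
  rintro (u | ⟨n, i, y⟩) hp
  · -- a direct probe
    have hu : ∀ a ∈ T, u ≠ List.ofFn (f a) := by
      rintro a ha rfl
      refine Finset.disjoint_left.1 hTR ha (Finset.mem_image.2 ⟨_, Finset.mem_toLeft.2 hp, ?_⟩)
      funext j
      exact hmid a b j
    change u ∈ A ↔ u ∈ B
    rw [hmem]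
    constructor
    · intro h
      refine Or.inl ⟨h, ?_⟩
      rintro ⟨a, ha, _, h2⟩
      exact hu a ha h2
    · rintro (h | ⟨a, ha, _, h2⟩)
      · exact h.1
      · exact absurd h2 (hu a ha)
  · change mext A y = mext B y
    by_cases hn : n = k + (l + l)
    · subst hn
      have h1 := mext_union A W₁ hW₁ y
      have h2 := mext_union B W₂ (by
        intro x hx
        rintro ⟨_, h⟩
        exact h ⟨x, hx, rfl⟩) y
      have h3 : B ∪ {w | ∃ x ∈ W₂, w = List.ofFn x} = A ∪ {w | ∃ x ∈ W₁, w = List.ofFn x} := by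
        rw [Set.sdiff_union_self]
        refine Set.union_eq_self_of_subset_right ?_
        rintro w ⟨x, hx, rfl⟩
        exact Or.inl (hW₂ x hx)
      rw [h3, h1] at h2
      have h4 : ∑ x ∈ W₁, del x y = ∑ x ∈ W₂, del x y := by
        rw [Finset.sum_image fun a _ a' _ h => hf h, Finset.sum_image fun a _ a' _ h => hf h]
        simp only [f, del_append]
        rw [← Finset.mul_sum, ← Finset.mul_sum, ← Finset.sum_mul, ← Finset.sum_mul]
        have h5 := hT (mid ⟨k + (l + l), i, y⟩) (Finset.mem_image_of_mem _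
          (Finset.mem_filter.2 ⟨Finset.mem_toRight.2 hp, by
            change k + (l + l) ≠ 0
            omega⟩))
        have h6 : (mid ⟨k + (l + l), i, y⟩).2 =
            fun j => y (Fin.natAdd k (Fin.castAdd l j)) := by
          funext j
          have hj : k + (j : ℕ) < k + (l + l) := by have := j.2; omega
          change (if h : k + (j : ℕ) < k + (l + l) then y ⟨k + j, h⟩ else 0) = _
          rw [dif_pos hj]
          rfl
        rw [h6] at h5
        rw [h5]
      rw [h4] at h2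
      exact add_right_cancel h2
    · apply mext_of_ne
      intro w hw
      rw [hmem]
      have h1 : ∀ a, w ≠ List.ofFn (f a) := by
        rintro a rfl
        rw [List.length_ofFn] at hw
        omega
      constructor
      · intro h
        refine Or.inl ⟨h, ?_⟩
        rintro ⟨a, _, _, h2⟩
        exact h1 a h2
      · rintro (h | ⟨a, _, _, h2⟩)
        · exact h.1
        · exact absurd h2 (h1 a)

end Pool.Agent.PFG
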