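import Pool.Agent.PFG.Block
import Pool.Agent.MP_92db0f_lc_alg.Machines
import Pool.Agent.MP_92db0f_lc_thr.Growth

/-!
Configurations and systems of requirements for probes of the oracle and of its multilinear extension
over finite commutative rings.
-/

set_option autoImplicit false

namespace Pool.Agent.PFG

open Lib.helper60 MP_92db0f_lc_mul

/-- the initial oracle -/
def base (cl : List Bool → ℕ) (pat : Set (List Bool)) : Set (List Bool) :=
  {x | ∃ z a b : List Bool, a.length = cl z ∧ b.length = cl z ∧ x = encPair (z, a ++ b) ∧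
    a ∈ pat ∧ b ∉ pat}

/-- An oracle whose blocks with addresses in `G` are marked; the block of the address `z` consists
of the strings `encPair (z, a ++ b)` with `|a| = |b| = cl z`. -/
structure Conf {E : ℕ → Type} [∀ i, CommRing (E i)] {w : ℕ → ℕ} {pat : Set (List Bool)}
    (hpat : Universal E w pat) (cl : List Bool → ℕ) where
  G : Set (List Bool)
  A : Set (List Bool)
  mem : ∀ x, ¬ (x ∈ A ↔ x ∈ base cl pat) → ∃ z ∈ G, ∃ a b : List Bool,
    x = encPair (z, a ++ b) ∧ a.length = cl z ∧ b.length = cl z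
  ex : ∀ z ∈ G, ∃ b : List Bool, b.length = cl z ∧ encPair (z, b ++ b) ∈ A
  uniq : ∀ z b b' : List Bool, b.length = cl z → b'.length = cl z →
    encPair (z, b ++ b) ∈ A → encPair (z, b' ++ b') ∈ A → b = b'

/-- A system of requirements. The requirement `r` has the level `lv r`; `acc A r` says that it is
accepted relative to the oracle `A`, and acceptance depends on probes of weight at most `2 ^ lv r`.
The actions of the requirements of class `t` do not injure the requirements of level at most `pc t`;
the requirements of level `m` are injured by the actions of the classes below `τ m`. The number of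
the actions of the class `t` is coded by the blocks `cdH t u`, the state of `r` after the history
`v` by the block `cdV r v`. -/
structure Sys (E : ℕ → Type) [∀ i, CommRing (E i)] where
  w : ℕ → ℕ
  pat : Set (List Bool)
  hpat : Universal E w pat
  cl : List Bool → ℕ
  Req : Type
  lv : Req → ℕ
  Rq : ℕ → Finset Req
  mem_Rq : ∀ m r, r ∈ Rq m ↔ lv r = m
  card_Rq : ∀ m, (Rq m).card ≤ 2 ^ (2 * m + 2)
  cdH : ℕ → List Bool → List Bool
  cdV : Req → List Bool → List Bool
  cdH_inj : ∀ t u t' u', cdH t u = cdH t' u' → t = t' ∧ u = u'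
  cdV_inj : ∀ r v r' v', cdV r v = cdV r' v' → r = r' ∧ v = v'
  cd_ne : ∀ t u r v, cdH t u ≠ cdV r v
  pc : ℕ → ℕ
  τ : ℕ → ℕ
  pc_mono : ∀ i j, i ≤ j → pc i ≤ pc j
  τ_iff : ∀ t m, t < τ m ↔ pc t < m
  le_pc : ∀ m, m ≤ pc (MP_92db0f_lc_thr.cls m)
  cdH_cl : ∀ t u, 4 * (5 * pc t + 10) ≤ cl (cdH t u)
  cdV_cl : ∀ r v, 4 * (5 * pc (MP_92db0f_lc_thr.cls (lv r)) + 10) ≤ cl (cdV r v)
  acc : Set (List Bool) → Req → Prop
  use : ∀ A r, acc A r → ∃ S : Finset (Pr E), wt w S ≤ 2 ^ lv r ∧ ∀ B, Agree A B S → acc B r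

end Pool.Agent.PFG
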