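import Pool.Agent.PFG.CDefs

/-!
Configurations: one block is marked, invisibly for a small set of probes.
-/

set_option autoImplicit false

namespace Pool.Agent.PFG

open Lib.helper60 MP_92db0f_lc_alg MP_92db0f_lc_mul

lemma parts {cl : List Bool → ℕ} {z z' a b a' b' : List Bool} (ha : a.length = cl z)
    (hb : b.length = cl z) (ha' : a'.length = cl z') (hb' : b'.length = cl z')
    (h : encPair (z, a ++ b) = encPair (z', a' ++ b')) : z = z' ∧ a = a' ∧ b = b' := by
  have h1 := encPair_inj h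
  rw [Prod.mk.injEq] at h1
  obtain ⟨h1, h2⟩ := h1
  subst h1
  obtain ⟨h3, h4⟩ := List.append_inj h2 (by rw [ha, ha'])
  exact ⟨rfl, h3, h4⟩

lemma mem_base {cl : List Bool → ℕ} {pat : Set (List Bool)} {z a b : List Bool}
    (ha : a.length = cl z) (hb : b.length = cl z) :
    encPair (z, a ++ b) ∈ base cl pat ↔ (a ∈ pat ∧ b ∉ pat) := by
  constructor
  · rintro ⟨z', a', b', ha', hb', h, h1, h2⟩
    obtain ⟨-, e2, e3⟩ := parts ha hb ha' hb' h
    rw [e2, e3]
    exact ⟨h1, h2⟩
  · rintro ⟨h1, h2⟩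
    exact ⟨z, a, b, ha, hb, rfl, h1, h2⟩

/-- the first part of the strings of a block -/
def pre (z : List Bool) : List Bool := z.flatMap (fun b => [b, b]) ++ [false, true]

lemma pre_append (z y : List Bool) : pre z ++ y = encPair (z, y) := by
  unfold pre encPair
  rw [List.append_assoc]

variable {E : ℕ → Type} [∀ i, CommRing (E i)] {w : ℕ → ℕ} {pat : Set (List Bool)}
  {hpat : Universal E w pat} {cl : List Bool → ℕ}

/-- the blocks without a mark are as in the initial oracle -/
lemma Conf.block (κ : Conf hpat cl) {z a b : List Bool} (hz : z ∉ κ.G) (ha : a.length = cl z)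
    (hb : b.length = cl z) : encPair (z, a ++ b) ∈ κ.A ↔ (a ∈ pat ∧ b ∉ pat) := by
  rw [← mem_base ha hb]
  by_contra hmem
  obtain ⟨z', hz', a', b', he, ha', hb'⟩ := κ.mem _ hmem
  obtain ⟨h1, -, -⟩ := parts ha hb ha' hb' he
  exact hz (h1 ▸ hz')

/-- a block is marked iff it contains a string on the diagonal -/
theorem Conf.marked (κ : Conf hpat cl) (z : List Bool) :
    z ∈ κ.G ↔ ∃ b : List Bool, b.length = cl z ∧ encPair (z, b ++ b) ∈ κ.A := by
  constructor
  · exact κ.ex z
  · rintro ⟨b, hb, h⟩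
    by_contra hz
    have h1 := (κ.block hz hb hb).1 h
    exact h1.2 h1.1

open Classical in
/-- One block is marked. -/
theorem Conf.add (κ : Conf hpat cl) {z : List Bool} (hz : z ∉ κ.G) {M : ℕ}
    (hzl : 4 * (5 * M + 10) ≤ cl z) (S : Finset (Pr E)) (hS : wt w S < 2 ^ (5 * M + 10)) :
    ∃ κ' : Conf hpat cl, κ'.G = insert z κ.G ∧ Agree κ.A κ'.A S ∧
      ∀ x : List Bool, x.length < cl z → (x ∈ κ'.A ↔ x ∈ κ.A) := by
  have hcat : ∀ a b : Fin (cl z) → Bool, List.ofFn (Fin.append (pre z).get (Fin.append a b)) =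
      encPair (z, List.ofFn a ++ List.ofFn b) := by
    intro a b
    rw [List.ofFn_fin_append, List.ofFn_fin_append, List.ofFn_get, pre_append]
  obtain ⟨B, T, b₀, hb₀, hb₀p, hB, hBS⟩ := exists_block hpat κ.A S (pre z).length (cl z) (by omega)
    (pre z).get
    (fun a b => by
      rw [hcat]
      exact κ.block hz List.length_ofFn List.length_ofFn)
    (hS.le.trans (Nat.pow_le_pow_right (by norm_num) (by omega)))
  obtain ⟨b₁, hb₁⟩ : ∃ b₁, b₁ = List.ofFn b₀ := ⟨_, rfl⟩
  have hb₁l : b₁.length = cl z := by rw [hb₁]; exact List.length_ofFn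
  simp only [hcat, ← hb₁] at hB
  -- nothing changes outside of the column `b₁` of the block
  have hout : ∀ x, (∀ a : Fin (cl z) → Bool, x ≠ encPair (z, List.ofFn a ++ b₁)) →
      (x ∈ B ↔ x ∈ κ.A) := by
    intro x hx
    rw [hB]
    constructor
    · rintro (h | ⟨a, _, _, h⟩)
      · exact h.1
      · exact absurd h (hx a)
    · intro h
      refine Or.inl ⟨h, ?_⟩
      rintro ⟨a, _, _, h'⟩
      exact hx a h'
  have hin : encPair (z, b₁ ++ b₁) ∈ B := by
    rw [hB]
    refine Or.inr ⟨b₀, hb₀, hb₀p, ?_⟩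
    rw [← hb₁]
  -- a diagonal string of the block
  have hdiag : ∀ b : List Bool, b.length = cl z → encPair (z, b ++ b) ∈ B → b = b₁ := by
    intro b hb h
    by_contra hne
    rw [hout _ (fun a h' => hne (parts hb hb (List.length_ofFn) hb₁l h').2.2),
      κ.block hz hb hb] at h
    exact h.2 h.1
  refine ⟨⟨insert z κ.G, B, ?_, ?_, ?_⟩, rfl, hBS, ?_⟩
  · intro x hx
    by_cases hcol : ∃ a : Fin (cl z) → Bool, x = encPair (z, List.ofFn a ++ b₁)
    · obtain ⟨a, rfl⟩ := hcol
      exact ⟨z, Or.inl rfl, List.ofFn a, b₁, rfl, List.length_ofFn, hb₁l⟩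
    · rw [hout x (fun a h => hcol ⟨a, h⟩)] at hx
      obtain ⟨z', hz', a', b', h2, h3, h4⟩ := κ.mem x hx
      exact ⟨z', Or.inr hz', a', b', h2, h3, h4⟩
  · rintro z' (rfl | hz')
    · exact ⟨b₁, hb₁l, hin⟩
    · obtain ⟨b, hb, hm⟩ := κ.ex z' hz'
      refine ⟨b, hb, (hout _ fun a h => hz ?_).2 hm⟩
      exact (parts hb hb (List.length_ofFn) hb₁l h).1 ▸ hz'
  · intro z' b b' hb hb' h1 h2
    by_cases hzz : z' = z
    · subst hzz
      exact (hdiag b hb h1).trans (hdiag b' hb' h2).symm
    · rw [hout _ (fun a h => hzz (parts hb hb (List.length_ofFn) hb₁l h).1)] at h1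
      rw [hout _ (fun a h => hzz (parts hb' hb' (List.length_ofFn) hb₁l h).1)] at h2
      exact κ.uniq z' b b' hb hb' h1 h2
  · intro x hx2
    refine hout x fun a h => ?_
    rw [h, ← pre_append, List.length_append, List.length_append, hb₁l, List.length_ofFn] at hx2
    omega

/-- the initial configuration -/
def Conf.init (hpat : Universal E w pat) (cl : List Bool → ℕ) : Conf hpat cl where
  G := ∅
  A := base cl pat
  mem := fun _ hx => absurd Iff.rfl hx
  ex := fun z h => absurd h (Set.notMem_empty z)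
  uniq := fun z b b' hb hb' h _ => by
    rw [mem_base hb hb] at h
    exact absurd h.1 h.2

end Pool.Agent.PFG
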