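import Pool.Agent.PFG.CDefs
import Pool.Agent.PFP.Sys

/-!
The system of requirements for `NE` relative to an oracle and its multilinear extension over finite
commutative rings.
-/

set_option autoImplicit false

namespace Pool.Agent.PFG

open Turing Computability Lib.helper60
open MP_92db0f_lc_alg (answers PolyTime Mach exists_short answers_congr encPair_inj answers_length)
open MP_92db0f_lc (length_encPair PT_npow)
open MP_92db0f_lc_mul (Pr wt Agree mextOracle orc answers_prs length_strFun exists_few
  exists_universal wgt)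
open MP_92db0f_lc_thr (cls Dg sb hs Off lg rtc pcf τf NAcc exists_levelN le_rtc PT_rtc pcf_mono τf_iff
  le_pcf)
open PFP (cl pd clf cdHf cdVf le_cl_of_pd)

/-- **The system of requirements.** -/
theorem exists_sys {a b p q : ℕ} (hb : 1 ≤ b) (hab : b ≤ a) (hq : 1 ≤ q) (hp : 1 ≤ p)
    {E : ℕ → Type} [∀ i, CommRing (E i)] {len : ℕ → ℕ} (cod : (i : ℕ) → E i → Fin (len i) → Bool)
    (hcod : ∀ i, Function.Injective (cod i)) (g : ℕ → MP_92db0f_lc_alg.Mach) :
    ∃ (Y : Sys E) (κ : ℕ → ℕ) (f : ℕ × List Bool → Y.Req), (∀ e, 1 ≤ κ e) ∧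
      (∀ r, Y.lv (f r) = κ r.1 * (r.2.length + 1)) ∧ (∀ m, Y.τ m = τf a b m) ∧
      (Y.cl = fun z => 4 * clf p q z) ∧ (∀ t u, Y.cdH t u = cdHf a b p q t u) ∧
      (∀ r v, Y.cdV (f r) v = cdVf a b p q (fun e x => κ e * (x.length + 1)) r v) ∧
      (∀ A r, Y.acc A (f r) ↔
        MP_92db0f_lc_thr.NAcc (g r.1) (MP_92db0f_lc_alg.join A (mextOracle cod A)) r.2) := by
  classical
  have hκ := fun e => exists_levelN (g e) e
  choose κ Q hκ1 hQ hκ2 using hκ
  let lv : ℕ → List Bool → ℕ := fun e x => κ e * (x.length + 1)
  have hlv : ∀ e x, e ≤ lv e x ∧ x.length ≤ lv e x := by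
    intro e x
    have h1 := hκ1 e
    change e ≤ κ e * (x.length + 1) ∧ x.length ≤ κ e * (x.length + 1)
    constructor <;> nlinarith
  choose Z hZ hZ' using exists_short
  have hfin : ∀ i, Finite (E i) := fun i => Finite.of_injective (cod i) (hcod i)
  obtain ⟨I, hI, hI'⟩ := exists_few len
  obtain ⟨pat, hpat⟩ := exists_universal (E := E) (w := wgt len)
    (fun i => by unfold wgt; omega)
    (fun i => by
      refine (Nat.card_le_card_of_injective (cod i) (hcod i)).trans ?_
      rw [Nat.card_eq_fintype_card, Fintype.card_fun, Fintype.card_bool, Fintype.card_fin]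
      exact Nat.pow_le_pow_right (by norm_num) (by unfold wgt; omega))
    hI hI'
  have hrep : ∀ s t : ℕ, List.replicate s true = List.replicate t true → s = t := by
    intro s t h
    simpa using congrArg List.length h
  refine ⟨{ w := wgt len
            pat := pat
            hpat := hpat
            cl := fun z => 4 * clf p q z
            Req := ℕ × List Bool
            lv := fun r => lv r.1 r.2
            Rq := fun m => ((Finset.range (m + 1)) ×ˢ Z m).filter fun r => lv r.1 r.2 = m
            mem_Rq := ?_
            card_Rq := ?_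
            cdH := cdHf a b p q
            cdV := cdVf a b p q lv
            cdH_inj := ?_
            cdV_inj := ?_
            cd_ne := ?_
            pc := pcf a b
            τ := τf a b
            pc_mono := pcf_mono hb
            τ_iff := τf_iff hb hab
            le_pc := le_pcf hb hab
            cdH_cl := ?_
            cdV_cl := ?_
            acc := fun A r => NAcc (g r.1) (orc cod A) r.2
            use := ?_ }, κ, id, fun e => by have := hκ1 e; omega, fun r => rfl, fun m => rfl,
            rfl, fun t u => rfl, fun r v => rfl, fun A r => Iff.rfl⟩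
  · rintro m ⟨e, x⟩
    rw [Finset.mem_filter, Finset.mem_product, Finset.mem_range]
    constructor
    · exact fun h => h.2
    · intro h
      obtain ⟨h1, h2⟩ := hlv e x
      dsimp only at h ⊢
      rw [h] at h1 h2
      exact ⟨⟨by omega, hZ' m x h2⟩, h⟩
  · intro m
    refine (Finset.card_filter_le _ _).trans ?_
    rw [Finset.card_product, Finset.card_range]
    have h1 : m + 1 ≤ 2 ^ (m + 1) := Nat.lt_two_pow_self.le
    calc (m + 1) * (Z m).card ≤ 2 ^ (m + 1) * 2 ^ (m + 1) := Nat.mul_le_mul h1 (hZ m)
      _ = 2 ^ (2 * m + 2) := by rw [← pow_add]; congr 1; ring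
  · intro t u t' u' h
    unfold cdHf at h
    have h1 := encPair_inj h
    rw [Prod.mk.injEq, List.cons.injEq] at h1
    have h2 := encPair_inj h1.2.2
    rw [Prod.mk.injEq] at h2
    exact ⟨hrep _ _ h2.1, h2.2⟩
  · rintro ⟨e, x⟩ u ⟨e', x'⟩ u' h
    unfold cdVf at h
    have h1 := encPair_inj h
    rw [Prod.mk.injEq, List.cons.injEq] at h1
    have h2 := encPair_inj h1.2.2
    rw [Prod.mk.injEq] at h2
    have h3 := encPair_inj h2.2
    rw [Prod.mk.injEq] at h3
    exact ⟨Prod.ext (hrep _ _ h2.1) h3.1, h3.2⟩
  · intro t u r v h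
    unfold cdHf cdVf at h
    have h1 := encPair_inj h
    rw [Prod.mk.injEq, List.cons.injEq] at h1
    exact absurd h1.2.1 (by decide)
  · intro t u
    apply Nat.mul_le_mul_left
    apply le_cl_of_pd hp hq
    unfold cdHf
    rw [length_encPair, List.length_replicate]
    omega
  · rintro ⟨e, x⟩ u
    apply Nat.mul_le_mul_left
    apply le_cl_of_pd hp hq
    unfold cdVf
    rw [length_encPair, List.length_replicate]
    dsimp only
    omega
  · rintro A ⟨e, x⟩ ⟨y, hy, hacc⟩
    have hL : (encPair (x, y)).length ≤ 2 * x.length + 2 + 2 ^ ((g e).2.2.2 * x.length +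
        (g e).2.2.2) := by
      rw [length_encPair]
      dsimp only at hy
      omega
    obtain ⟨S, hS, h⟩ := answers_prs cod hcod (g e).q (encPair (x, y)) A
      ((Q e).eval (2 * (encPair (x, y)).length + 2 + (g e).2.2.1.eval (encPair (x, y)).length))
      ((g e).2.2.1.eval (encPair (x, y)).length) (fun i hi => by
        refine (hQ e _).trans (evalMono (Q e) ?_)
        dsimp only
        rw [answers_length]
        omega)
    refine ⟨S, hS.trans (hκ2 e _ _ hL), fun B hB => ⟨y, hy, ?_⟩⟩
    unfold Mach.Acc1 at hacc ⊢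
    rw [← h B hB _ le_rfl]
    exact hacc

end Pool.Agent.PFG
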